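import Pool.Agent.V5helper46.GP.Stm0

/-!
# Project GP (helper46): jobs FL and GS (helper47)
-/

set_option autoImplicit false

open PowerSeries Pool.Agent.Y113

namespace Pool.Agent.V5helper47.GP

theorem coe_comp (p : Polynomial ℚ) (a : ℚ) :
    ((p.comp (Polynomial.C a * Polynomial.X) : Polynomial ℚ) : ℚ⟦X⟧) = rescale a (p : ℚ⟦X⟧) := by
  ext n
  rw [Polynomial.coeff_coe, Polynomial.comp_C_mul_X_coeff, coeff_rescale, Polynomial.coeff_coe, mul_comm]

theorem rescale_neg_neg (f : ℚ⟦X⟧) : rescale (-1 : ℚ) (rescale (-1 : ℚ) f) = f := by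
  ext n
  rw [coeff_rescale, coeff_rescale, ← mul_assoc, ← mul_pow]
  norm_num

/-- job FL -/
theorem t_FL : Pool.Agent.V5helper46.GP.S_FL := by
  intro κ _ y hy
  rw [Fintype.linearIndependent_iff] at hy ⊢
  intro g hg j
  have h1 : ∑ i, ((g i).comp (Polynomial.C (-1 : ℚ) * Polynomial.X)) • y i = 0 := by
    have h2 := congrArg (rescale (-1 : ℚ)) hg
    rw [map_sum, map_zero] at h2
    rw [← h2]
    refine Finset.sum_congr rfl fun i _ => ?_
    rw [Algebra.smul_def, Algebra.smul_def, map_mul, rescale_neg_neg]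
    congr 1
    exact coe_comp (g i) (-1)
  have h3 := hy _ h1 j
  ext n
  have h4 := congrArg (fun p => Polynomial.coeff p n) h3
  simp only [Polynomial.comp_C_mul_X_coeff, Polynomial.coeff_zero] at h4
  rcases mul_eq_zero.1 h4 with h5 | h5
  · rw [h5, Polynomial.coeff_zero]
  · exact absurd h5 (pow_ne_zero _ (by norm_num))

theorem ps_comp (P : Polynomial ℤ) (σ : ℤ) :
    ps (P.comp (Polynomial.C σ * Polynomial.X)) = rescale (σ : ℚ) (ps P) := by
  unfold ps
  rw [← coe_comp, Polynomial.map_comp, Polynomial.map_mul, Polynomial.map_C, Polynomial.map_X]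
  rfl

theorem hd_rescale (s : ℕ) (a : ℚ) (f : ℚ⟦X⟧) :
    hd s (rescale a f) = PowerSeries.C (a ^ s) * rescale a (hd s f) := by
  ext m
  rw [PowerSeries.coeff_C_mul, coeff_rescale, hd, hd, coeff_mk, coeff_mk, coeff_rescale, pow_add]
  ring

theorem ps_C_mul (a : ℤ) (P : Polynomial ℤ) :
    ps (Polynomial.C a * P) = PowerSeries.C (a : ℚ) * ps P := by
  unfold ps
  rw [Polynomial.map_mul, Polynomial.map_C, Polynomial.coe_mul, Polynomial.coe_C]
  rfl

theorem natDegree_comp_le' (P : Polynomial ℤ) (σ : ℤ) :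
    (P.comp (Polynomial.C σ * Polynomial.X)).natDegree ≤ P.natDegree := by
  refine (Polynomial.natDegree_comp_le).trans ?_
  have : (Polynomial.C σ * Polynomial.X : Polynomial ℤ).natDegree ≤ 1 :=
    (Polynomial.natDegree_C_mul_le _ _).trans Polynomial.natDegree_X_le
  calc P.natDegree * _ ≤ P.natDegree * 1 := Nat.mul_le_mul_left _ this
    _ = P.natDegree := mul_one _

/-- job GS -/
theorem t_GS : Pool.Agent.V5helper46.GP.S_GS := by
  intro ι _ q C T y h σ hσ
  have hS : (1 : ℝ) ≤ |(σ : ℝ)| := by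
    have : (1 : ℤ) ≤ |σ| := Int.one_le_abs hσ
    exact_mod_cast this
  have hS0 : (0 : ℝ) < |(σ : ℝ)| := by linarith
  have hC := h.one_le
  have hC0 : (0 : ℝ) < C := by linarith
  have hpow : ∀ {a b : ℕ}, a ≤ b → |(σ : ℝ)| ^ a ≤ |(σ : ℝ)| ^ b := fun hab => pow_le_pow_right₀ hS hab
  have hS1 : ∀ a : ℕ, (1 : ℝ) ≤ |(σ : ℝ)| ^ a := fun a => one_le_pow₀ hS
  have hmono : ∀ m : ℕ, C ^ (m + 1) ≤ (C * |(σ : ℝ)| ^ (q + 1)) ^ (m + 1) := fun m =>
    pow_le_pow_left₀ hC0.le (le_mul_of_one_le_right hC0.le (hS1 _)) _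
  refine ⟨?_, ?_, ?_, ?_, ?_, ?_⟩
  · exact hC.trans (le_mul_of_one_le_right hC0.le (hS1 _))
  · exact (natDegree_comp_le' T σ).trans h.degT
  · intro l
    rw [Polynomial.comp_C_mul_X_coeff]
    push_cast
    rw [abs_mul, abs_pow]
    rcases le_or_gt l q with hl | hl
    · exact mul_le_mul (h.sizeT l) (hpow (by omega)) (by positivity) hC0.le
    · rw [Polynomial.coeff_eq_zero_of_natDegree_lt (lt_of_le_of_lt h.degT hl)]
      simp only [Int.cast_zero, abs_zero, zero_mul]
      positivity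
  · intro i m
    rw [coeff_rescale]
    push_cast
    rw [abs_mul, abs_pow, mul_pow, mul_comm, ← pow_mul]
    refine mul_le_mul (h.size i m) (hpow ?_) (by positivity) (by positivity)
    nlinarith
  · intro m
    obtain ⟨d, hd, hdC, hdi⟩ := h.den m
    refine ⟨d, hd, hdC.trans (hmono m), fun i j hj => ?_⟩
    obtain ⟨a, ha⟩ := hdi i j hj
    refine ⟨σ ^ j * a, ?_⟩
    rw [coeff_rescale]
    push_cast
    rw [← ha]
    ring
  · intro k
    obtain ⟨g, hg, hgC, hgs⟩ := h.der k
    refine ⟨g, hg, hgC.trans (hmono k), fun s hs => ?_⟩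
    obtain ⟨G, hG1, hG2, hG3⟩ := hgs s hs
    refine ⟨fun i j => Polynomial.C (σ ^ s) * (G i j).comp (Polynomial.C σ * Polynomial.X), ?_, ?_, ?_⟩
    · intro i j
      exact (Polynomial.natDegree_C_mul_le _ _).trans ((natDegree_comp_le' _ σ).trans (hG1 i j))
    · intro i j l
      rw [Polynomial.coeff_C_mul, Polynomial.comp_C_mul_X_coeff]
      push_cast
      rw [abs_mul, abs_mul, abs_pow, abs_pow]
      rcases le_or_gt l (q * s) with hl | hl
      · calc |(σ : ℝ)| ^ s * (|(((G i j).coeff l : ℤ) : ℝ)| * |(σ : ℝ)| ^ l)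
            = |(((G i j).coeff l : ℤ) : ℝ)| * |(σ : ℝ)| ^ (s + l) := by rw [pow_add]; ring
          _ ≤ C ^ (k + 1) * |(σ : ℝ)| ^ ((q + 1) * (k + 1)) := by
              refine mul_le_mul (hG2 i j l) (hpow ?_) (by positivity) (by positivity)
              calc s + l ≤ s + q * s := by omega
                _ = (q + 1) * s := by ring
                _ ≤ (q + 1) * (k + 1) := Nat.mul_le_mul_left _ (by omega)
          _ = (C * |(σ : ℝ)| ^ (q + 1)) ^ (k + 1) := by rw [mul_pow, pow_mul]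
      · rw [Polynomial.coeff_eq_zero_of_natDegree_lt (lt_of_le_of_lt (hG1 i j) hl)]
        simp only [Int.cast_zero, abs_zero, zero_mul, mul_zero]
        positivity
    · intro i
      have e := congrArg (fun f => PowerSeries.C ((σ : ℚ) ^ s) * rescale (σ : ℚ) f) (hG3 i)
      simp only [map_mul, map_pow, map_sum, map_natCast] at e
      rw [Finset.mul_sum] at e
      rw [hd_rescale, ps_comp]
      calc (g : ℚ⟦X⟧) * (rescale (σ : ℚ) (ps T) ^ s * (PowerSeries.C ((σ : ℚ) ^ s) * rescale (σ : ℚ) (hd s (y i))))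
          = (PowerSeries.C (σ : ℚ)) ^ s * ((g : ℚ⟦X⟧) * (rescale (σ : ℚ) (ps T) ^ s * rescale (σ : ℚ) (hd s (y i)))) := by
            rw [map_pow]; ring
        _ = _ := by
            rw [e]
            refine Finset.sum_congr rfl fun j _ => ?_
            rw [ps_C_mul, ps_comp]
            push_cast
            rw [map_pow]
            ring

end Pool.Agent.V5helper47.GP
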